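import Mathlib
import Pool.Agent.H250R3.Berg.Stmts

set_option autoImplicit false

/-! The domain is bounded, open and nonempty. -/

open Polynomial MeasureTheory
open scoped ComplexConjugate

namespace Pool.Agent.H844R3.Berg.Dom

open Pool.Agent.H250R3.Berg

theorem GN_sub (N : ℕ) (hN : N ≠ 0) : GN N ⊆ Metric.closedBall 0 1 := by
  refine interior_subset.trans (convexHull_min ?_ (convex_closedBall 0 1))
  intro w hw
  have h1 : ‖w‖ ^ N = 1 := by
    have h2 : w ^ N = 1 := hw
    rw [← norm_pow, h2, norm_one]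
  have h3 : ‖w‖ = 1 := (pow_eq_one_iff_of_nonneg (norm_nonneg _) hN).mp h1
  simp [h3]

theorem adm_ne (N : ℕ) (ζ : ℂ) (h : Adm N ζ) : N ≠ 0 := by
  rcases h with ⟨h, -⟩ | ⟨h, -⟩ <;> omega

theorem three (s : Set ℂ) (a b c : ℂ) (ha : a ∈ s) (hb : b ∈ s) (hc : c ∈ s) (x y z : ℝ)
    (hx : 0 ≤ x) (hy : 0 ≤ y) (hz : 0 ≤ z) (h : x + y + z = 1) :
    (x : ℂ) * a + y * b + z * c ∈ convexHull ℝ s := by
  have h1 := (convex_convexHull ℝ s).sum_mem (t := (Finset.univ : Finset (Fin 3)))
    (w := ![x, y, z]) (z := ![a, b, c]) (by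
      intro i _
      fin_cases i <;> simp [hx, hy, hz]) (by
      rw [Fin.sum_univ_three]
      simpa using h) (by
      intro i _
      fin_cases i
      · exact subset_convexHull ℝ s ha
      · exact subset_convexHull ℝ s hb
      · exact subset_convexHull ℝ s hc)
  rw [Fin.sum_univ_three] at h1
  simpa using h1

theorem GN_nonempty (N : ℕ) (ζ : ℂ) (h : Adm N ζ) : (GN N).Nonempty := by
  rcases h with ⟨hN, hζ⟩ | ⟨hN, hζ⟩
  · subst hN
    refine ⟨0, mem_interior.mpr ⟨Metric.ball 0 (1 / 4), ?_, Metric.isOpen_ball, by simp⟩⟩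
    have h3 : √3 * √3 = 3 := Real.mul_self_sqrt (by norm_num)
    have h30 : 0 < √3 := Real.sqrt_pos.mpr (by norm_num)
    have h31 : 1 < √3 := by nlinarith
    have hc1 : ζ ^ 3 = 1 := by
      rw [hζ]
      apply Complex.ext
      · simp [pow_succ]
        nlinarith
      · simp [pow_succ]
        nlinarith
    have hc2 : (ζ ^ 2) ^ 3 = 1 := by rw [← pow_mul, mul_comm, pow_mul, hc1, one_pow]
    intro z hz
    rw [mem_ball_zero_iff] at hz
    have hre := abs_lt.mp (lt_of_le_of_lt (Complex.abs_re_le_norm z) hz)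
    have him := abs_lt.mp (lt_of_le_of_lt (Complex.abs_im_le_norm z) hz)
    have hb1 : z.im / √3 ≤ 1 / 4 := by
      rw [div_le_iff₀ h30]
      nlinarith
    have hb2 : -(1 / 4) ≤ z.im / √3 := by
      rw [le_div_iff₀ h30]
      nlinarith
    have hm := three {w : ℂ | w ^ 3 = 1} 1 ζ (ζ ^ 2) (by simp) hc1 hc2
      ((1 + 2 * z.re) / 3) ((1 - z.re) / 3 + z.im / √3) ((1 - z.re) / 3 - z.im / √3)
      (by linarith) (by linarith) (by linarith) (by ring)
    convert hm using 1
    rw [hζ]
    apply Complex.ext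
    · simp [pow_succ]
      ring_nf
      have : √3 ^ 2 = 3 := by rw [sq]; exact h3
      rw [this]
      ring
    · simp [pow_succ]
      field_simp
      ring
  · subst hN
    refine ⟨Complex.I / 3, mem_interior.mpr ⟨Metric.ball (Complex.I / 3) (1 / 8), ?_,
      Metric.isOpen_ball, by simp⟩⟩
    intro z hz
    rw [mem_ball_iff_norm] at hz
    have hre := abs_lt.mp (lt_of_le_of_lt (Complex.abs_re_le_norm _) hz)
    have him := abs_lt.mp (lt_of_le_of_lt (Complex.abs_im_le_norm _) hz)
    simp at hre him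
    have hm := three {w : ℂ | w ^ 4 = 1} 1 Complex.I (-1) (by simp) (by simp)
      (by simp; norm_num)
      ((1 - z.im + z.re) / 2) z.im ((1 - z.im - z.re) / 2)
      (by linarith) (by linarith) (by linarith) (by ring)
    convert hm using 1
    apply Complex.ext
    · simp
      ring
    · simp

theorem taskDom : TaskDom := by
  intro N ζ h
  have hI : ∀ f : ℂ → ℂ, Continuous f → IntegrableOn f (GN N) := fun f hf =>
    (hf.continuousOn.integrableOn_compact (isCompact_closedBall 0 1)).mono_set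
      (GN_sub N (adm_ne N ζ h))
  refine ⟨hI, fun d hd => ?_⟩
  have hopen : IsOpen (GN N) := isOpen_interior
  have hd1 : ∀ z : ℂ, d.eval z * conj (d.eval z) = ((Complex.normSq (d.eval z) : ℝ) : ℂ) :=
    fun z => Complex.mul_conj _
  simp only [hd1] at hd
  rw [integral_complex_ofReal] at hd
  have hd2 : ∫ z in GN N, Complex.normSq (d.eval z) = 0 := by exact_mod_cast hd
  have hcont : Continuous (fun z : ℂ => Complex.normSq (d.eval z)) :=
    Complex.continuous_normSq.comp d.continuous
  have hint : IntegrableOn (fun z : ℂ => Complex.normSq (d.eval z)) (GN N) :=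
    (hcont.continuousOn.integrableOn_compact (isCompact_closedBall 0 1)).mono_set
      (GN_sub N (adm_ne N ζ h))
  rw [integral_eq_zero_iff_of_nonneg (fun z => Complex.normSq_nonneg _) hint] at hd2
  have hEq := Measure.eqOn_open_of_ae_eq hd2 hopen hcont.continuousOn continuousOn_const
  obtain ⟨z0, hz0⟩ := GN_nonempty N ζ h
  refine Polynomial.eq_zero_of_infinite_isRoot d (Set.Infinite.mono ?_
    (infinite_of_mem_nhds z0 (hopen.mem_nhds hz0)))
  intro z hz
  have h1 := hEq hz
  exact Complex.normSq_eq_zero.mp h1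

end Pool.Agent.H844R3.Berg.Dom
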